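import Mathlib
import Pool.Agent.S11957

set_option autoImplicit false

namespace Pool.Agent.Results.MP_ec4324_co.Disproof

open Finset

/-- The line with direction `v` and parameter `b`: `x = b` for the vertical direction `none`,
and `y = m x + b` for the direction `some m` of slope `m`. -/
def OnLine {p : ℕ} (v : Option (ZMod p)) (b : ZMod p) (q : ZMod p × ZMod p) : Prop :=
  match v with
  | none => q.1 = b
  | some m => q.2 = m * q.1 + b

/-- All lines parallel to `v` meet `S` in the same number of points. -/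
def Equidistributed {p : ℕ} (S : Set (ZMod p × ZMod p)) (v : Option (ZMod p)) : Prop :=
  ∀ b b' : ZMod p, {q | q ∈ S ∧ OnLine v b q}.ncard = {q | q ∈ S ∧ OnLine v b' q}.ncard

theorem result : ∃ p d : ℕ, p.Prime ∧ d + 2 ≤ p ∧
    ∀ S : Set (ZMod p × ZMod p), {v : Option (ZMod p) | Equidistributed S v}.ncard ≠ d := by
  classical
  obtain ⟨p₀, h⟩ := Pool.Agent.S11957.result 4 le_rfl
  obtain ⟨p, hp1, hp⟩ := Nat.exists_infinite_primes (p₀ + 5)
  have := Fact.mk hp
  refine ⟨p, p - 3, hp, by omega, fun S hS => ?_⟩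
  obtain ⟨T, rfl⟩ : ∃ T : Finset (ZMod p × ZMod p), S = T := ⟨(Set.toFinite S).toFinset, (Set.Finite.coe_toFinset _).symm⟩
  have e : ∀ v b, {q | q ∈ (T : Set (ZMod p × ZMod p)) ∧ OnLine v b q}.ncard =
      (T.filter (fun q => v.elim q.1 (fun m => q.2 - m * q.1) = b)).card := by
    intro v b
    rw [← Set.ncard_coe_finset]
    congr 1
    ext q
    cases v <;> simp [OnLine, sub_eq_iff_eq_add']
  have s : ∀ v : Option (ZMod p), T.card =
      ∑ b, (T.filter (fun q => v.elim q.1 (fun m => q.2 - m * q.1) = b)).card := fun v =>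
    card_eq_sum_card_fiberwise (by simp)
  have k : ∀ v, Equidistributed (T : Set (ZMod p × ZMod p)) v ↔
      ∀ b, (T.filter (fun q => v.elim q.1 (fun m => q.2 - m * q.1) = b)).card * p = T.card := by
    intro v
    simp only [Equidistributed, e]
    constructor
    · intro hh b
      rw [s v, sum_congr rfl (fun b' _ => hh b' b)]
      simp [mul_comm]
    · exact fun hh b b' => Nat.eq_of_mul_eq_mul_right hp.pos ((hh b).trans (hh b').symm)
  obtain ⟨v, hv⟩ := Set.nonempty_of_ncard_ne_zero (hS.trans_ne (by omega))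
  refine h p hp (by omega) T ⟨_, by rw [mul_comm]; exact ((k v).1 hv 0).symm⟩ ?_
  have c := Set.ncard_add_ncard_compl {v : Option (ZMod p) | Equidistributed (T : Set _) v}
  rw [hS, Nat.card_eq_fintype_card, Fintype.card_option, ZMod.card] at c
  have : {v : Option (ZMod p) | Equidistributed (T : Set _) v}ᶜ = {d : Option (ZMod p) | ∃ b : ZMod p,
      (T.filter (fun q => d.elim q.1 (fun m => q.2 - m * q.1) = b)).card * p ≠ T.card} := by
    ext v; simp [k]
  rw [this] at c
  omega

end Pool.Agent.Results.MP_ec4324_co.Disproof
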